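import Pool.Agent.Q293.HF.Stm

/-!
# Project HF, job ZP: the covering of the intersection of the two charts
-/

set_option autoImplicit false

open Topology Filter
open scoped LinearAlgebra.Projectivization

namespace Pool.Agent.Q238.HF

open Pool.Agent.Helper922.HB Pool.Agent.Q293.HF

/-- the part of `ℂˣ × Vi` with `w ≠ 0` -/
abbrev EP : Type := {e : Cs × Vi // e.2.1.2 ≠ 0}

theorem gI_iff (e : Cs × Vi) : e.2.1.2 ≠ 0 ↔ (gI e).2.1.2 ≠ 0 := by
  show e.2.1.2 ≠ 0 ↔ ze⁻¹ * e.2.1.2 ≠ 0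
  constructor
  · exact fun h => mul_ne_zero (inv_ne_zero ze_ne) h
  · intro h h0
    exact h (by rw [h0, mul_zero])

/-- the generator on `EP` -/
noncomputable def gP : EP ≃ₜ EP := gI.subtype gI_iff

theorem gP_apply (e : EP) : ((gP e : EP) : Cs × Vi) = gI e.1 := rfl

theorem gP_symm_apply (e : EP) : ((gP.symm e : EP) : Cs × Vi) = gI.symm e.1 := rfl

theorem gP_zpow (k : ℤ) (e : EP) : (((gP ^ k) e : EP) : Cs × Vi) = (gI ^ k) e.1 := by
  induction k using Int.induction_on generalizing e with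
  | zero => rfl
  | succ i ih =>
    rw [zpow_add_one, zpow_add_one]
    exact ih (gP e)
  | pred i ih =>
    rw [zpow_sub_one, zpow_sub_one]
    exact ih (gP.symm e)

/-- the function `r` -/
noncomputable def rP : C(EP, ℝ) :=
  ⟨fun e => -Real.log ‖(e.1.1.1 : ℂ)‖ / Real.log 2, by
    refine Continuous.div_const (Continuous.neg (Continuous.log ?_ ?_)) _
    · fun_prop
    · exact fun e => (norm_pos_iff.2 e.1.1.2).ne'⟩

theorem rP_add (e : EP) : rP (gP e) = rP e + 1 := by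
  have h1 : ‖(e.1.1.1 : ℂ)‖ ≠ 0 := (norm_pos_iff.2 e.1.1.2).ne'
  have h2 : Real.log 2 ≠ 0 := (Real.log_pos (by norm_num)).ne'
  show -Real.log ‖(e.1.1.1 : ℂ) / 2‖ / Real.log 2 = -Real.log ‖(e.1.1.1 : ℂ)‖ / Real.log 2 + 1
  rw [norm_div, Complex.norm_ofNat, Real.log_div h1 (by norm_num)]
  field_simp
  ring

theorem zp (h : S_ZC) (h1 : S_OI) (h2 : S_FI) (h3 : S_RG) : S_ZP := by
  intro n φ hφ
  obtain ⟨hc, ho⟩ := h1 n φ hφ
  obtain ⟨hi, horb⟩ := h2 n φ hφ
  obtain ⟨-, hr⟩ := h3 n φ hφ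
  let p : C(EP, ↥(Set.range (ptA hφ) ∩ Set.range (ptI hφ))) :=
    ⟨fun e => ⟨ptI hφ e.1, (hr e.1).2 e.2, e.1, rfl⟩, by fun_prop⟩
  have hE : IsOpen {e : Cs × Vi | e.2.1.2 ≠ 0} := isOpen_ne_fun (by fun_prop) continuous_const
  refine ⟨p, gP, fun e => rfl, h _ _ p gP rP rP_add ?_ ?_ ?_ ?_⟩
  · intro O hO
    have h4 : IsOpen ((fun e : EP => ptI hφ e.1) '' O) := by
      have := ho _ (hE.isOpenMap_subtype_val O hO)
      rwa [Set.image_image] at this
    have h5 : p '' O = Subtype.val ⁻¹' ((fun e : EP => ptI hφ e.1) '' O) := by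
      ext x
      constructor
      · rintro ⟨e, he, rfl⟩
        exact ⟨e, he, rfl⟩
      · rintro ⟨e, he, hx⟩
        exact ⟨e, he, Subtype.ext hx⟩
    rw [h5]
    exact h4.preimage continuous_subtype_val
  · rintro ⟨x, hx1, e, rfl⟩
    exact ⟨⟨e, (hr e).1 hx1⟩, rfl⟩
  · exact fun e => Subtype.ext (hi e.1)
  · intro e e' he
    obtain ⟨k, hk⟩ := horb e.1 e'.1 (congrArg Subtype.val he)
    exact ⟨k, Subtype.ext ((gP_zpow k e).trans hk)⟩

end Pool.Agent.Q238.HF
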